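import Pool.Agent.H453.SH.Res
import Pool.Graph.R_pool_sql_team_seeded_3997aac3.Q286.EQ.MW

/-!
# The restriction on the Tate-Shafarevich groups has finite kernel
-/

set_option autoImplicit false

open WeierstrassCurve IsDedekindDomain NumberField Pool.Agent.Y696
open scoped Classical
open Pool.Agent.TH841.SH.D
open Pool.Agent.Y664.QA (factor locTriv_up tr_ex' res res_apply res_mul res_one res_cont compl_tower
  act_id)
open Pool.Agent.TH841.NF.D (IsShaCoc shaCoc Sha)

namespace Pool.Agent.H453.SH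

section
variable {k : Type} [Field k] [NumberField k] {W : WeierstrassCurve k}

/-- points fixed by the subgroup of an intermediate field -/
lemma fixpt (M : IntermediateField k (AlgebraicClosure k)) (Q : Pt W (AlgebraicClosure k))
    (hfix : ∀ σ : Gal k, σ ∈ M.fixingSubgroup → act W σ.toAlgHom Q = Q) :
    ∃ R : Pt W M, act W M.val R = Q := by
  have hmem : ∀ x : AlgebraicClosure k, (∀ σ : Gal k, σ ∈ M.fixingSubgroup → σ x = x) → x ∈ M := by
    intro x hx
    rw [← InfiniteGalois.fixedField_fixingSubgroup M, IntermediateField.mem_fixedField_iff]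
    exact hx
  rcases pt_cases Q with h0 | ⟨x, y, hn', h0⟩
  · exact ⟨0, by rw [h0, map_zero]⟩
  · have hxy : ∀ σ : Gal k, σ ∈ M.fixingSubgroup → σ x = x ∧ σ y = y := by
      intro σ hσ
      have h5 := hfix σ hσ
      rw [h0] at h5
      exact mk_ext.1 h5
    obtain ⟨x₀, hx⟩ : ∃ x₀ : M, M.val x₀ = x := ⟨⟨x, hmem x fun σ h => (hxy σ h).1⟩, rfl⟩
    obtain ⟨y₀, hy⟩ : ∃ y₀ : M, M.val y₀ = y := ⟨⟨y, hmem y fun σ h => (hxy σ h).2⟩, rfl⟩
    subst hx hy
    have hns : (W.baseChange M).toAffine.Nonsingular x₀ y₀ :=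
      (Affine.baseChange_nonsingular W M.val.injective ..).mp hn'
    exact ⟨mkp hns, by rw [h0]; rfl⟩

lemma range_fg (hΔ : W.Δ ≠ 0) (M : IntermediateField k (AlgebraicClosure k))
    [FiniteDimensional k M] : Module.Finite ℤ (act W M.val).range := by
  have hM : NumberField M := NumberField.of_module_finite k M
  have h1 : (W.baseChange M).Δ ≠ 0 := by
    unfold WeierstrassCurve.baseChange
    rw [WeierstrassCurve.map_Δ]
    exact (map_ne_zero _).2 hΔ
  have h2 : AddGroup.FG (Pt W M) :=
    @Pool.Agent.Q286.EQ.mordell_weil M _ hM (Classical.decEq M) (W.baseChange M) h1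
  have h3 : Module.Finite ℤ (Pt W M) := Module.Finite.iff_addGroup_fg.2 h2
  exact Module.Finite.of_surjective (act W M.val).rangeRestrict.toIntLinearMap
    (act W M.val).rangeRestrict_surjective

/-- the cocycles that vanish on a subgroup -/
def vanish (W : WeierstrassCurve k) (N : Subgroup (Gal k)) : AddSubgroup (shaCoc W) where
  carrier := {f | ∀ σ ∈ N, f.1 σ = 0}
  zero_mem' := fun _ _ => rfl
  add_mem' := fun {f g} hf hg σ hσ => by
    change f.1 σ + g.1 σ = 0
    rw [hf σ hσ, hg σ hσ, add_zero]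
  neg_mem' := fun {f} hf σ hσ => by
    change - f.1 σ = 0
    rw [hf σ hσ, neg_zero]

lemma vanish_right {N : Subgroup (Gal k)} (f : vanish W N) (σ τ : Gal k) (hτ : τ ∈ N) :
    f.1.1 (σ * τ) = f.1.1 σ := by
  have hc : IsCoc W f.1.1 := f.1.2.1
  rw [hc.2, f.2 τ hτ, map_zero, add_zero]

lemma vanish_fix {N : Subgroup (Gal k)} [N.Normal] (f : vanish W N) (σ τ : Gal k) (hτ : τ ∈ N) :
    act W τ.toAlgHom (f.1.1 σ) = f.1.1 σ := by
  have hc : IsCoc W f.1.1 := f.1.2.1
  have h1 := hc.2 τ σ
  rw [f.2 τ hτ, zero_add] at h1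
  rw [← h1]
  have h2 : τ * σ = σ * (σ⁻¹ * τ * σ) := by group
  rw [h2]
  apply vanish_right
  have := ‹N.Normal›.conj_mem τ hτ σ⁻¹
  rwa [inv_inv] at this

lemma vanish_finite (hΔ : W.Δ ≠ 0) (M : IntermediateField k (AlgebraicClosure k))
    [FiniteDimensional k M] [Normal k M] : Module.Finite ℤ (vanish W M.fixingSubgroup) := by
  have hgal : IsGalois k M := ⟨⟩
  have hgal2 : IsGalois k (AlgebraicClosure k) := ⟨⟩
  have hN : M.fixingSubgroup.Normal := inferInstance
  have hB := range_fg hΔ M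
  have hfin : Finite (Gal k ⧸ M.fixingSubgroup) := by
    have h1 : M.fixingSubgroup = (AlgEquiv.restrictNormalHom M : Gal k →* _).ker :=
      (IntermediateField.restrictNormalHom_ker M).symm
    rw [h1]
    exact Finite.of_injective _ (QuotientGroup.kerLift_injective _)
  let φ : vanish W M.fixingSubgroup →+ (Gal k ⧸ M.fixingSubgroup → (act W M.val).range) :=
    { toFun := fun f q => ⟨f.1.1 q.out, by
        obtain ⟨R, hR⟩ := fixpt M (f.1.1 q.out) (fun σ hσ => vanish_fix f _ σ hσ)
        exact ⟨R, hR⟩⟩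
      map_zero' := rfl
      map_add' := fun f g => rfl }
  have hφ : Function.Injective φ := by
    intro f g h
    apply Subtype.ext
    apply Subtype.ext
    funext σ
    have h1 := congrArg Subtype.val (congrFun h (σ : Gal k ⧸ M.fixingSubgroup))
    have h2 : f.1.1 (Quotient.out (σ : Gal k ⧸ M.fixingSubgroup)) =
      g.1.1 (Quotient.out (σ : Gal k ⧸ M.fixingSubgroup)) := h1
    obtain ⟨τ, hτ⟩ := QuotientGroup.mk_out_eq_mul M.fixingSubgroup σ
    rw [hτ, vanish_right f σ _ τ.2, vanish_right g σ _ τ.2] at h2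
    exact h2
  exact Module.Finite.of_injective φ.toIntLinearMap hφ

/-- the subgroup of the classes of these cocycles -/
noncomputable def cls (W : WeierstrassCurve k) (N : Subgroup (Gal k)) : vanish W N →+ Sha W :=
  (QuotientAddGroup.mk' ((cob W).addSubgroupOf (shaCoc W))).comp (vanish W N).subtype

lemma cls_killed {N : Subgroup (Gal k)} [Fintype (Gal k ⧸ N)] (f : vanish W N) :
    Fintype.card (Gal k ⧸ N) • cls W N f = 0 := by
  rw [← map_nsmul]
  refine (QuotientAddGroup.eq_zero_iff _).2 ?_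
  change IsCob W ((Fintype.card (Gal k ⧸ N) • f.1.1 : Coch W))
  have hc : IsCoc W f.1.1 := f.1.2.1
  refine ⟨-∑ q : Gal k ⧸ N, f.1.1 q.out, fun σ => ?_⟩
  have h1 : ∀ q : Gal k ⧸ N, f.1.1 (σ • q).out = f.1.1 σ + act W σ.toAlgHom (f.1.1 q.out) := by
    intro q
    rw [← hc.2]
    obtain ⟨τ, hτ⟩ := QuotientGroup.mk_out_eq_mul N (σ * q.out)
    have h2 : σ • q = ((σ * q.out : Gal k) : Gal k ⧸ N) := by
      conv_lhs => rw [← QuotientGroup.out_eq' q]
      rfl
    rw [h2, hτ, vanish_right f _ _ τ.2]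
  have h3 : ∑ q : Gal k ⧸ N, f.1.1 (σ • q).out = ∑ q : Gal k ⧸ N, f.1.1 q.out :=
    Equiv.sum_comp (MulAction.toPerm σ : Equiv.Perm (Gal k ⧸ N)) (fun q => f.1.1 q.out)
  rw [Finset.sum_congr rfl fun q _ => h1 q, Finset.sum_add_distrib, Finset.sum_const,
    Finset.card_univ, ← map_sum] at h3
  change Fintype.card (Gal k ⧸ N) • f.1.1 σ = _
  rw [map_neg, eq_sub_of_add_eq h3]
  abel

lemma cls_range_finite (hΔ : W.Δ ≠ 0) (M : IntermediateField k (AlgebraicClosure k))
    [FiniteDimensional k M] [Normal k M] : Finite (cls W M.fixingSubgroup).range := by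
  have hfin : Finite (Gal k ⧸ M.fixingSubgroup) := by
    have h1 : M.fixingSubgroup = (AlgEquiv.restrictNormalHom M : Gal k →* _).ker :=
      (IntermediateField.restrictNormalHom_ker M).symm
    rw [h1]
    exact Finite.of_injective _ (QuotientGroup.kerLift_injective _)
  have _ : Fintype (Gal k ⧸ M.fixingSubgroup) := Fintype.ofFinite _
  have h1 := vanish_finite hΔ M
  have h2 : Module.Finite ℤ (cls W M.fixingSubgroup).range :=
    Module.Finite.of_surjective (cls W M.fixingSubgroup).rangeRestrict.toIntLinearMap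
      (cls W M.fixingSubgroup).rangeRestrict_surjective
  refine Module.finite_of_fg_torsion _ ?_
  intro x
  obtain ⟨x, f, rfl⟩ := x
  have hne : ((Fintype.card (Gal k ⧸ M.fixingSubgroup) : ℕ) : ℤ) ≠ 0 := by
    exact_mod_cast Fintype.card_ne_zero
  refine ⟨⟨_, mem_nonZeroDivisors_of_ne_zero hne⟩, ?_⟩
  apply Subtype.ext
  change ((Fintype.card (Gal k ⧸ M.fixingSubgroup) : ℕ) : ℤ) • cls W M.fixingSubgroup f = 0
  rw [natCast_zsmul, cls_killed]

end

section main
variable {k K : Type} [Field k] [NumberField k] [Field K] [NumberField K] [Algebra k K]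
  {W : WeierstrassCurve k} (j : AlgebraicClosure k ≃ₐ[k] AlgebraicClosure K)

/-- the normal closure of `K` in the algebraic closure of `k` -/
lemma exists_normal : ∃ M : IntermediateField k (AlgebraicClosure k), FiniteDimensional k M ∧
    Normal k M ∧ ∀ σ : Gal k, σ ∈ M.fixingSubgroup → ∃ τ : Gal K, res j τ = σ := by
  let ι : K →ₐ[k] AlgebraicClosure k :=
    (j.symm : AlgebraicClosure K →ₐ[k] AlgebraicClosure k).comp
      (IsScalarTower.toAlgHom k K (AlgebraicClosure K))
  let K' : IntermediateField k (AlgebraicClosure k) := ι.fieldRange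
  have hfd : FiniteDimensional k K := FiniteDimensional.right ℚ k K
  have hfd' : FiniteDimensional k K' :=
    LinearEquiv.finiteDimensional (AlgEquiv.ofInjectiveField ι).toLinearEquiv
  refine ⟨IntermediateField.normalClosure k K' (AlgebraicClosure k), inferInstance, inferInstance,
    fun σ hσ => ?_⟩
  have h1 : ∀ y : K, σ (ι y) = ι y := by
    intro y
    rw [IntermediateField.mem_fixingSubgroup_iff] at hσ
    exact hσ _ (K'.le_normalClosure ⟨y, rfl⟩)
  let s : AlgebraicClosure K ≃ₐ[k] AlgebraicClosure K := (j.symm.trans σ).trans j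
  have hs : ∀ y : K, s (algebraMap K _ y) = algebraMap K _ y := by
    intro y
    change j (σ (ι y)) = _
    rw [h1]
    exact j.apply_symm_apply _
  refine ⟨AlgEquiv.ofRingEquiv (f := s.toRingEquiv) hs, ?_⟩
  apply AlgEquiv.ext
  intro x
  apply j.injective
  rw [res_apply]
  change j (σ (j.symm (j x))) = _
  rw [AlgEquiv.symm_apply_apply]

lemma tr_inj (P : Pt W (AlgebraicClosure k))
    (hP : tr K W (AlgebraicClosure K)
      (act W (j : AlgebraicClosure k →ₐ[k] AlgebraicClosure K) P) = 0) : P = 0 := by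
  apply act_inj W (j : AlgebraicClosure k →ₐ[k] AlgebraicClosure K)
  apply (tr K W (AlgebraicClosure K)).injective
  rw [hP, map_zero, map_zero]

/-- coboundaries are locally trivial -/
lemma cob_loc (P : Pt W (AlgebraicClosure k)) {L : Type} [Field L] [Algebra k L] :
    LocTriv W L (fun σ : Gal k => act W σ.toAlgHom P - P) := by
  intro ι
  refine ⟨act W ι P, fun τ σ h => ?_⟩
  have h4 : act W ι (act W σ.toAlgHom P) =
      act W (τ.toAlgHom.restrictScalars k) (act W ι P) := by
    rw [act_act, act_act]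
    congr 2
    ext z
    exact (h z).symm
  rw [map_sub, h4]

lemma cob_sha (P : Pt W (AlgebraicClosure k)) :
    IsShaCoc W (fun σ : Gal k => act W σ.toAlgHom P - P) :=
  ⟨coc_of_pt W P, fun _ => cob_loc P, fun _ => cob_loc P⟩

lemma ker_le (M : IntermediateField k (AlgebraicClosure k))
    (hM : ∀ σ : Gal k, σ ∈ M.fixingSubgroup → ∃ τ : Gal K, res j τ = σ) :
    (rstS (W := W) j).ker ≤ (cls W M.fixingSubgroup).range := by
  intro x hx
  obtain ⟨⟨f, hf⟩, rfl⟩ := QuotientAddGroup.mk_surjective x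
  have h1 : IsCob (W.map (algebraMap k K)) (rst W j f) := by
    have h2 : (rstC j ⟨f, hf⟩ : shaCoc (W.map (algebraMap k K))) ∈
        (cob (W.map (algebraMap k K))).addSubgroupOf (shaCoc (W.map (algebraMap k K))) :=
      (QuotientAddGroup.eq_zero_iff _).1 hx
    exact h2
  obtain ⟨P, hP⟩ := h1
  let P₀ : Pt W (AlgebraicClosure k) :=
    act W (j.symm : AlgebraicClosure K →ₐ[k] AlgebraicClosure k)
      ((tr K W (AlgebraicClosure K)).symm P)
  have hP₀ : tr K W (AlgebraicClosure K)
      (act W (j : AlgebraicClosure k →ₐ[k] AlgebraicClosure K) P₀) = P := by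
    have e : ((j : AlgebraicClosure k →ₐ[k] AlgebraicClosure K)).comp
        (j.symm : AlgebraicClosure K →ₐ[k] AlgebraicClosure k) = AlgHom.id k _ :=
      AlgHom.ext fun x => j.apply_symm_apply x
    change tr K W (AlgebraicClosure K) (act W (j : AlgebraicClosure k →ₐ[k] AlgebraicClosure K)
      (act W (j.symm : AlgebraicClosure K →ₐ[k] AlgebraicClosure k)
        ((tr K W (AlgebraicClosure K)).symm P))) = P
    rw [act_act, e, act_id, AddEquiv.apply_symm_apply]
  let b : shaCoc W := ⟨_, cob_sha P₀⟩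
  let g : shaCoc W := ⟨f, hf⟩ - b
  have hg : ∀ σ ∈ M.fixingSubgroup, g.1 σ = 0 := by
    intro σ hσ
    obtain ⟨τ, rfl⟩ := hM σ hσ
    change f (res j τ) - (act W (res j τ).toAlgHom P₀ - P₀) = 0
    apply tr_inj j
    rw [map_sub, map_sub, map_sub, map_sub, tr_act_res, hP₀, ← rst_apply, hP τ, sub_self]
  refine ⟨⟨g, hg⟩, ?_⟩
  refine (QuotientAddGroup.eq (s := (cob W).addSubgroupOf (shaCoc W))).2 ?_
  have h3 : -g + ⟨f, hf⟩ = b := by
    change -(⟨f, hf⟩ - b) + ⟨f, hf⟩ = b
    abel
  change -g + ⟨f, hf⟩ ∈ (cob W).addSubgroupOf (shaCoc W)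
  rw [h3]
  exact ⟨P₀, fun σ => rfl⟩

/-- the restriction has finite kernel -/
theorem ker_finite (hΔ : W.Δ ≠ 0) : Finite (rstS (W := W) j).ker := by
  obtain ⟨M, h1, h2, h3⟩ := exists_normal (K := K) j
  have h4 := cls_range_finite hΔ M
  exact Finite.of_injective _ (AddSubgroup.inclusion_injective (ker_le j M h3))

end main

/-- **finiteness of the primary parts descends** -/
theorem sha_down {k K : Type} [Field k] [NumberField k] [Field K] [NumberField K] [Algebra k K]
    {W : WeierstrassCurve k} (hΔ : W.Δ ≠ 0) (p : ℕ)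
    (h : Finite {x : Sha (W.map (algebraMap k K)) // ∃ n : ℕ, p ^ n • x = 0}) :
    Finite {x : Sha W // ∃ n : ℕ, p ^ n • x = 0} := by
  have hfd : FiniteDimensional k K := FiniteDimensional.right ℚ k K
  have hcl : IsAlgClosure k (AlgebraicClosure K) :=
    ⟨inferInstance, Algebra.IsAlgebraic.trans k K (AlgebraicClosure K)⟩
  let j : AlgebraicClosure k ≃ₐ[k] AlgebraicClosure K :=
    IsAlgClosure.equiv k (AlgebraicClosure k) (AlgebraicClosure K)
  have hker := ker_finite (W := W) j hΔ
  have h1 : {x : Sha (W.map (algebraMap k K)) | ∃ n : ℕ, p ^ n • x = 0}.Finite := h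
  have h2 : ((rstS (W := W) j) ⁻¹' {x : Sha (W.map (algebraMap k K)) |
      ∃ n : ℕ, p ^ n • x = 0}).Finite := by
    refine Set.Finite.preimage' h1 fun b _ => ?_
    by_cases hb : ∃ a, rstS (W := W) j a = b
    · obtain ⟨a, ha⟩ := hb
      have h3 : (rstS (W := W) j) ⁻¹' {b} ⊆ (fun x => x + a) '' ((rstS (W := W) j).ker : Set _) := by
        intro x hx
        refine ⟨x - a, ?_, sub_add_cancel x a⟩
        change rstS (W := W) j (x - a) = 0
        have hx' : rstS (W := W) j x = b := hx
        rw [map_sub, hx', ha, sub_self]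
      exact Set.Finite.subset (Set.Finite.image _ hker) h3
    · have h3 : (rstS (W := W) j) ⁻¹' {b} = ∅ := by
        ext x
        exact ⟨fun hx => (hb ⟨x, hx⟩).elim, fun hx => hx.elim⟩
      rw [h3]
      exact Set.finite_empty
  refine Set.Finite.subset h2 ?_
  rintro x ⟨n, hn⟩
  refine ⟨n, ?_⟩
  rw [← map_nsmul, hn, map_zero]

end Pool.Agent.H453.SH
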