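import Mathlib
import Pool.Graph.R_seed8.TH841.NF.ShaN
import Pool.Graph.R_seed8.Y664.QA3

/-!
# Restriction of the cocycles of an elliptic curve to a larger field
-/

set_option autoImplicit false

open WeierstrassCurve IsDedekindDomain NumberField Pool.Agent.Y696
open scoped Classical
open Pool.Agent.TH841.SH.D
open Pool.Agent.Y664.QA (factor locTriv_up tr_ex' res res_apply res_mul res_one res_cont compl_tower
  act_id)

namespace Pool.Agent.H453.SH

section tr
variable {k : Type} (K : Type) [Field k] [Field K] [Algebra k K] (W : WeierstrassCurve k)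
  (L : Type) [Field L] [Algebra k L] [Algebra K L] [IsScalarTower k K L]

lemma bc_eq : W.baseChange L = (W.map (algebraMap k K)).baseChange L := by
  unfold WeierstrassCurve.baseChange
  rw [WeierstrassCurve.map_map, ← IsScalarTower.algebraMap_eq]

lemma tr_ex : ∃ Φ : Pt W L ≃+ Pt (W.map (algebraMap k K)) L, ∀ (x y : L)
    (hx : (W.baseChange L).toAffine.Nonsingular x y),
      ∃ hx' : ((W.map (algebraMap k K)).baseChange L).toAffine.Nonsingular x y,
        Φ (mkp hx) = mkp hx' :=
  @tr_ex' L _ (Classical.decEq L) _ _ (bc_eq K W L)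

/-- the points of the curve do not depend on the field of definition -/
noncomputable def tr : Pt W L ≃+ Pt (W.map (algebraMap k K)) L := (tr_ex K W L).choose

variable {K L}

lemma tr_mkp {x y : L} (hx : (W.baseChange L).toAffine.Nonsingular x y) :
    ∃ hx' : ((W.map (algebraMap k K)).baseChange L).toAffine.Nonsingular x y,
      tr K W L (mkp hx) = mkp hx' :=
  (tr_ex K W L).choose_spec x y hx

lemma tr_act {M : Type} [Field M] [Algebra k M] [Algebra K M] [IsScalarTower k K M]
    (φ : L →ₐ[k] M) (ψ : L →ₐ[K] M) (h : ∀ x, φ x = ψ x) (P : Pt W L) :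
    tr K W M (act W φ P) = act (W.map (algebraMap k K)) ψ (tr K W L P) := by
  rcases pt_cases P with rfl | ⟨x, y, hx, rfl⟩
  · rw [map_zero, map_zero, map_zero, map_zero]
  · obtain ⟨h1, e1⟩ := tr_mkp (K := K) W hx
    rw [e1, act_mk, act_mk]
    obtain ⟨h2, e2⟩ := tr_mkp (K := K) W ((Affine.baseChange_nonsingular W φ.injective ..).mpr hx)
    rw [e2]
    exact mk_ext.2 ⟨h x, h y⟩

end tr

section res
variable {k K : Type} [Field k] [Field K] [Algebra k K] (W : WeierstrassCurve k)
  (j : AlgebraicClosure k ≃ₐ[k] AlgebraicClosure K)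

/-- the restriction of a function on the absolute Galois group -/
noncomputable def rst (g : Coch W) : Coch (W.map (algebraMap k K)) :=
  fun σ : Gal K => tr K W (AlgebraicClosure K)
    (act W (j : AlgebraicClosure k →ₐ[k] AlgebraicClosure K) (g (res j σ)))

lemma rst_apply (g : Coch W) (σ : Gal K) : rst W j g σ =
    tr K W (AlgebraicClosure K) (act W (j : AlgebraicClosure k →ₐ[k] AlgebraicClosure K) (g (res j σ))) := rfl

lemma rst_add (f g : Coch W) : rst W j (f + g) = rst W j f + rst W j g := by
  funext σ
  change tr K W _ (act W (j : AlgebraicClosure k →ₐ[k] AlgebraicClosure K) (f (res j σ) + g (res j σ))) = _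
  rw [map_add, map_add]
  rfl

/-- the action and the restriction -/
lemma tr_act_res (σ : Gal K) (P : Pt W (AlgebraicClosure k)) :
    tr K W (AlgebraicClosure K) (act W (j : AlgebraicClosure k →ₐ[k] AlgebraicClosure K) (act W (res j σ).toAlgHom P)) =
      act (W.map (algebraMap k K)) σ.toAlgHom
        (tr K W (AlgebraicClosure K) (act W (j : AlgebraicClosure k →ₐ[k] AlgebraicClosure K) P)) := by
  rw [← tr_act (k := k) (K := K) W (σ.toAlgHom.restrictScalars k) σ.toAlgHom (fun _ => rfl),
    act_act, act_act]
  congr 2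
  congr 1
  exact AlgHom.ext fun x => res_apply j σ x

variable {W}

lemma rst_coc [CharZero k] {g : Coch W} (hg : IsCoc W g) :
    IsCoc (W.map (algebraMap k K)) (rst W j g) := by
  refine ⟨?_, fun σ τ => ?_⟩
  · exact (hg.1.comp_continuous (res_cont j)).comp
      (fun P => tr K W (AlgebraicClosure K) (act W (j : AlgebraicClosure k →ₐ[k] AlgebraicClosure K) P))
  · rw [rst_apply, rst_apply, rst_apply, res_mul, hg.2, map_add, map_add, tr_act_res]

lemma rst_cob {g : Coch W} (hg : IsCob W g) : IsCob (W.map (algebraMap k K)) (rst W j g) := by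
  obtain ⟨P, hP⟩ := hg
  refine ⟨tr K W (AlgebraicClosure K) (act W (j : AlgebraicClosure k →ₐ[k] AlgebraicClosure K) P), fun σ => ?_⟩
  rw [rst_apply, hP, map_sub, map_sub, tr_act_res]

lemma rst_loc {L : Type} [Field L] [Algebra K L] [Algebra k L] [IsScalarTower k K L]
    {g : Coch W} (h : LocTriv W L g) : LocTriv (W.map (algebraMap k K)) L (rst W j g) := by
  intro ι
  obtain ⟨P, hP⟩ := h ((ι.restrictScalars k).comp (j : AlgebraicClosure k →ₐ[k] AlgebraicClosure K))
  refine ⟨tr K W (AlgebraicClosure L) P, fun τ σ hτ => ?_⟩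
  have h1 := hP τ (res j σ) (fun x => by
    change τ (ι (j x)) = ι (j (res j σ x))
    rw [res_apply, hτ])
  rw [rst_apply, ← tr_act (k := k) (K := K) W (ι.restrictScalars k) ι (fun _ => rfl), act_act, h1,
    map_sub]
  congr 1
  exact tr_act (k := k) (K := K) W (τ.toAlgHom.restrictScalars k) (τ.toAlgHom.restrictScalars K)
    (fun _ => rfl) P

end res

section sha
variable {k K : Type} [Field k] [NumberField k] [Field K] [NumberField K] [Algebra k K]
  {W : WeierstrassCurve k} (j : AlgebraicClosure k ≃ₐ[k] AlgebraicClosure K)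

lemma rst_fin {g : Coch W} (h : ∀ v : HeightOneSpectrum (𝓞 k), LocTriv W (v.adicCompletion k) g)
    (w : HeightOneSpectrum (𝓞 K)) :
    LocTriv (W.map (algebraMap k K)) (w.adicCompletion K) (rst W j g) := by
  obtain ⟨v, φ, hφ⟩ := compl_tower k K w
  let _ : Algebra (v.adicCompletion k) (w.adicCompletion K) := φ.toAlgebra
  have _ : IsScalarTower k (v.adicCompletion k) (w.adicCompletion K) := by
    refine IsScalarTower.of_algebraMap_eq fun x => ?_
    rw [IsScalarTower.algebraMap_apply k K (w.adicCompletion K)]
    exact (hφ x).symm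
  exact rst_loc j (locTriv_up W (h v))

open scoped NumberField.LiesOver in
lemma rst_inf {g : Coch W} (h : ∀ v : InfinitePlace k, LocTriv W v.Completion g)
    (w : InfinitePlace K) :
    LocTriv (W.map (algebraMap k K)) w.Completion (rst W j g) := by
  let v : InfinitePlace k := w.comap (algebraMap k K)
  have hv : w.LiesOver v := ⟨rfl⟩
  have hst : IsScalarTower k K w.Completion := by
    refine IsScalarTower.of_algebraMap_eq fun x => ?_
    apply InfinitePlace.Completion.ext
    rw [InfinitePlace.Completion.algebraMap_toCompletion,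
      InfinitePlace.Completion.algebraMap_toCompletion, UniformSpace.Completion.algebraMap_def,
      UniformSpace.Completion.algebraMap_def]
    simp [WithAbs.algebraMap_right_apply]
  exact rst_loc j (locTriv_up W (h v))

open Pool.Agent.TH841.NF.D (IsShaCoc shaCoc Sha)

lemma rst_sha {g : Coch W} (hg : IsShaCoc W g) : IsShaCoc (W.map (algebraMap k K)) (rst W j g) :=
  ⟨rst_coc j hg.1, rst_fin j hg.2.1, rst_inf j hg.2.2⟩

/-- the homomorphism on the cocycles -/
noncomputable def rstC : shaCoc W →+ shaCoc (W.map (algebraMap k K)) where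
  toFun f := ⟨rst W j f.1, rst_sha j f.2⟩
  map_zero' := by
    apply Subtype.ext
    have h := rst_add W j 0 0
    rw [add_zero] at h
    exact left_eq_add.1 h
  map_add' f g := Subtype.ext (rst_add W j f.1 g.1)

/-- the restriction on the Tate-Shafarevich groups -/
noncomputable def rstS : Sha W →+ Sha (W.map (algebraMap k K)) :=
  QuotientAddGroup.map ((cob W).addSubgroupOf (shaCoc W))
    ((cob (W.map (algebraMap k K))).addSubgroupOf (shaCoc (W.map (algebraMap k K))))
    (rstC j) (fun _ hf => rst_cob j hf)

end sha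

end Pool.Agent.H453.SH
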